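import Mathlib
import Pool.Graph.R_pool_sql_team_seeded_47a924f7.T6.H32.OP.FIN

/-!
MP_da270e_gt: the metrics without property (O) contain open sets arbitrarily near the round metric.
-/

set_option autoImplicit false
set_option maxSynthPendingDepth 3

open scoped RealInnerProductSpace Topology Interval ContDiff Uniformity
open MeasureTheory Filter
open Pool.Agent.V11191.Opp (E3 IsPath Good Fr PP uu uu_smooth uu_odd exists_good)
open Pool.Agent.T6.H32.OP Pool.Agent.T6.H32.OP.FINx Pool.Agent.T6.H32.OP.MDLx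

namespace Pool.Agent.KS6_98.OppR

/-- For all small `ε` the metrics near `e^{2 ε u} g₀` do not have property (O). -/
theorem main_param (hKEY : KEYStm) (hUNI : UNIStm) :
    ∃ ε₀ : ℝ, 0 < ε₀ ∧ ∀ ε : ℝ, 0 < ε → ε ≤ ε₀ →
      ∃ δ : ℝ, 0 < δ ∧ ∀ G : E3 → Bil, Near G uu ε δ → ¬ PropO G := by
  obtain ⟨M, hM⟩ := exists_good (u := uu) (uu_smooth.of_le (by exact_mod_cast le_top)) uu_odd
  have hM1 := hM.one_le
  have hM0 : 0 < M := by linarith
  obtain ⟨c₀, hc₀, hUNI'⟩ := hUNI (60 * M)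
  have hm0 : 0 < min (1 / 2000 : ℝ) (c₀ / (180000 * M)) := lt_min (by norm_num) (by positivity)
  refine ⟨min (1 / 2000) (c₀ / (180000 * M)) / M, by positivity, fun ε hε hε₀ => ?_⟩
  set μ : ℝ := ε * M with hμ
  have hμ0 : 0 < μ := by positivity
  have hμm : μ ≤ min (1 / 2000 : ℝ) (c₀ / (180000 * M)) := (le_div_iff₀ hM0).1 hε₀
  have hμ1 : μ ≤ 1 / 2000 := hμm.trans (min_le_left _ _)
  have hμ2 : 90000 * M * μ < c₀ := by
    have h1 : μ ≤ c₀ / (180000 * M) := hμm.trans (min_le_right _ _)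
    have h2 : μ * (180000 * M) ≤ c₀ := (le_div_iff₀ (by positivity)).1 h1
    have h3 : 90000 * M * μ = (μ * (180000 * M)) / 2 := by ring
    rw [h3]
    linarith
  refine ⟨μ ^ 2, by positivity, fun G hN hO => ?_⟩
  have hC : Cst uu M ε μ (μ ^ 2) := ⟨hM, hε, hμ, hμ1, by positivity, le_rfl⟩
  obtain ⟨y, τ, n, w, hF, hw, hb⟩ := hKEY G M ε μ (μ ^ 2) hC hN hO
  obtain ⟨a, b, hab, hc⟩ := hUNI' y τ n w hF hw
  have := hb a b hab
  linarith

/-- the metrics without property (O) -/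
def NoO : Set RMetric := {G : RMetric | ¬ PropertyO G.g}

/-- A metric near the models does not have property (O). -/
theorem nhd_noO : ∃ ε₀ : ℝ, 0 < ε₀ ∧ ∀ ε : ℝ, 0 < ε → ε ≤ ε₀ → ∀ G₀ : RMetric,
    (∀ p v w, G₀.g p v w = mdl ε p v w) → NoO ∈ 𝓝 G₀ := by
  obtain ⟨ε₀, hε₀, hmain⟩ := main_param (key (low (mom el) seg cmp ang) cmp) uni
  refine ⟨ε₀, hε₀, fun ε hε hεε G₀ hG₀g => ?_⟩
  obtain ⟨δ, hδ, hno⟩ := hmain ε hε hεε
  obtain ⟨η, hη, hcut⟩ := cut ε δ hδ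
  have hG₀' : toBil G₀ = mdl ε := by
    funext p
    ext v w
    rw [toBil_apply G₀ p v w, hG₀g]
  set κ : ℝ := η / (CE + 1) with hκ
  have hCE := CE_nonneg
  have hκ0 : 0 < κ := by positivity
  have hκ1 : κ * CE ≤ η := by
    rw [hκ, div_mul_eq_mul_div, div_le_iff₀ (by positivity)]
    nlinarith
  have hU0 : ∀ i j, {G : RMetric | ∀ p : E3, ‖p‖ = 1 →
      dist (iteratedFDeriv ℝ 0 (fun q => G₀.g q (bs i) (bs j)) p)
        (iteratedFDeriv ℝ 0 (fun q => G.g q (bs i) (bs j)) p) < κ} ∈ 𝓝 G₀ :=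
    fun i j => nhd G₀ hκ0 0 (bs i) (bs j)
  have hU1 : ∀ i j, {G : RMetric | ∀ p : E3, ‖p‖ = 1 →
      dist (iteratedFDeriv ℝ 1 (fun q => G₀.g q (bs i) (bs j)) p)
        (iteratedFDeriv ℝ 1 (fun q => G.g q (bs i) (bs j)) p) < κ} ∈ 𝓝 G₀ :=
    fun i j => nhd G₀ hκ0 1 (bs i) (bs j)
  have hU : ∀ᶠ G in 𝓝 G₀, ∀ i j, (∀ p : E3, ‖p‖ = 1 →
      dist (iteratedFDeriv ℝ 0 (fun q => G₀.g q (bs i) (bs j)) p)
        (iteratedFDeriv ℝ 0 (fun q => G.g q (bs i) (bs j)) p) < κ) ∧ (∀ p : E3, ‖p‖ = 1 →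
      dist (iteratedFDeriv ℝ 1 (fun q => G₀.g q (bs i) (bs j)) p)
        (iteratedFDeriv ℝ 1 (fun q => G.g q (bs i) (bs j)) p) < κ) := by
    rw [Filter.eventually_all]
    intro i
    rw [Filter.eventually_all]
    intro j
    exact Filter.inter_mem (hU0 i j) (hU1 i j)
  filter_upwards [hU] with G hG
  show ¬ PropertyO G.g
  intro hGO
  rw [propO_toS] at hGO
  have h0 : ∀ p : E3, ‖p‖ = 1 → ‖(toS G).g p - mdl ε p‖ ≤ η := by
    intro p hp
    rw [← hG₀']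
    refine (close0 G G₀ p fun i j => ?_).trans hκ1
    exact (d0 (fun q => G.g q (bs i) (bs j)) (fun q => G₀.g q (bs i) (bs j)) p).trans
      ((hG i j).1 p hp).le
  have h1 : ∀ p : E3, ‖p‖ = 1 → ‖fderiv ℝ (toS G).g p - fderiv ℝ (mdl ε) p‖ ≤ η := by
    intro p hp
    have hp0 : p ≠ 0 := by
      rintro rfl
      simp at hp
    rw [← hG₀']
    refine (close1 G G₀ hp0 hκ0.le fun i j => ?_).trans hκ1
    exact (d1 (fun q => G.g q (bs i) (bs j)) (fun q => G₀.g q (bs i) (bs j)) p).trans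
      ((hG i j).2 p hp).le
  obtain ⟨G', hN, hag⟩ := hcut (toS G) h0 h1
  exact hno G' hN (prs (toS G).g G' hag hGO)

/-! ### Convergence of the models to the round metric -/

/-- Derivatives of a function with a parameter. -/
theorem iter_eq {F : ℝ × E3 → ℝ} {U : Set (ℝ × E3)} (hU : IsOpen U) (hF : ContDiffOn ℝ ∞ F U)
    (k : ℕ) (ε : ℝ) (p : E3) (hp : (ε, p) ∈ U) :
    iteratedFDeriv ℝ k (fun q => F (ε, q)) p =
      (iteratedFDeriv ℝ k F (ε, p)).compContinuousLinearMap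
        (fun _ => ContinuousLinearMap.inr ℝ ℝ E3) := by
  set f : ℝ × E3 → ℝ := fun z => F (z + (ε, 0)) with hf
  set V : Set (ℝ × E3) := {z | z + (ε, 0) ∈ U} with hV
  have hVo : IsOpen V := hU.preimage (by fun_prop)
  have hfV : ContDiffOn ℝ ∞ f V := hF.comp (by fun_prop) (fun z hz => hz)
  have hWo : IsOpen ((ContinuousLinearMap.inr ℝ ℝ E3) ⁻¹' V) :=
    hVo.preimage (ContinuousLinearMap.inr ℝ ℝ E3).continuous
  have hpV : (ContinuousLinearMap.inr ℝ ℝ E3) p ∈ V := by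
    simpa [hV] using hp
  have h1 := (ContinuousLinearMap.inr ℝ ℝ E3).iteratedFDerivWithin_comp_right hfV
    hVo.uniqueDiffOn hWo.uniqueDiffOn (x := p) hpV (i := k) (by exact_mod_cast le_top)
  rw [iteratedFDerivWithin_of_isOpen k hWo (show p ∈ _ from hpV),
    iteratedFDerivWithin_of_isOpen k hVo hpV] at h1
  have h2 : f ∘ (ContinuousLinearMap.inr ℝ ℝ E3) = fun q => F (ε, q) := by
    funext q
    simp [hf]
  rw [h2] at h1
  rw [h1, hf, iteratedFDeriv_comp_add_right]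
  simp

theorem F_smooth (v w : E3) :
    ContDiffOn ℝ ∞ (fun z : ℝ × E3 => mdl z.1 z.2 v w) (Prod.snd ⁻¹' {0}ᶜ) := by
  set U : Set (ℝ × E3) := Prod.snd ⁻¹' {0}ᶜ with hUdef
  have hsnd : ContDiffOn ℝ ∞ (fun z : ℝ × E3 => z.2) U := contDiff_snd.contDiffOn
  have hn : ContDiffOn ℝ ∞ (fun z : ℝ × E3 => ‖z.2‖) U := hsnd.norm ℝ (fun z hz => hz)
  have hne : ∀ z ∈ U, ‖z.2‖ ≠ 0 := fun z hz => norm_ne_zero_iff.2 hz
  have h1 : ContDiffOn ℝ ∞ (fun z : ℝ × E3 => ‖z.2‖⁻¹ • z.2) U := (hn.inv hne).smul hsnd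
  have h2 : ContDiffOn ℝ ∞ (fun z : ℝ × E3 => uu (‖z.2‖⁻¹ • z.2)) U :=
    uu_smooth.comp_contDiffOn h1
  have h3 : ContDiffOn ℝ ∞ (fun z : ℝ × E3 => Real.exp (2 * (z.1 * uu (‖z.2‖⁻¹ • z.2)))) U :=
    (contDiffOn_const.mul (contDiff_fst.contDiffOn.mul h2)).exp
  have h5 : ContDiffOn ℝ ∞ (fun z : ℝ × E3 => (‖z.2‖ ^ 2)⁻¹) U :=
    (hn.pow 2).inv (fun z hz => pow_ne_zero 2 (hne z hz))
  have h6 : ContDiffOn ℝ ∞ (fun z : ℝ × E3 => (⟪z.2, v⟫ : ℝ) * ⟪z.2, w⟫) U :=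
    (hsnd.inner ℝ contDiffOn_const).mul (hsnd.inner ℝ contDiffOn_const)
  have h7 : ContDiffOn ℝ ∞ (fun z : ℝ × E3 => Real.exp (2 * (z.1 * uu (‖z.2‖⁻¹ • z.2))) *
      (⟪v, w⟫ - (‖z.2‖ ^ 2)⁻¹ * (⟪z.2, v⟫ * ⟪z.2, w⟫))) U :=
    h3.mul (contDiffOn_const.sub (h5.mul h6))
  refine h7.congr ?_
  intro z hz
  exact mdl_apply hz v w

theorem isOpen_U : IsOpen ((Prod.snd ⁻¹' {0}ᶜ : Set (ℝ × E3))) :=
  isOpen_compl_singleton.preimage continuous_snd

theorem cont_iter (k : ℕ) (v w : E3) : Continuous (fun z : ℝ × S2 =>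
    iteratedFDeriv ℝ k (fun q => mdl z.1 q v w) (z.2 : E3)) := by
  have hmem : ∀ z : ℝ × S2, ((z.1, (z.2 : E3)) : ℝ × E3) ∈ (Prod.snd ⁻¹' {0}ᶜ : Set (ℝ × E3)) := by
    rintro ⟨ε, p, hp⟩ h
    have h0 : p = 0 := h
    rw [S2, h0] at hp
    simp at hp
  have h1 : Continuous (fun z : ℝ × S2 =>
      iteratedFDeriv ℝ k (fun z : ℝ × E3 => mdl z.1 z.2 v w) (z.1, (z.2 : E3))) := by
    have h2 := (F_smooth v w).continuousOn_iteratedFDerivWithin (m := k)
      (by exact_mod_cast le_top) isOpen_U.uniqueDiffOn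
    have h3 : ContinuousOn (iteratedFDeriv ℝ k (fun z : ℝ × E3 => mdl z.1 z.2 v w))
        (Prod.snd ⁻¹' {0}ᶜ) :=
      h2.congr fun z hz => (iteratedFDerivWithin_of_isOpen k isOpen_U hz).symm
    exact h3.comp_continuous (by fun_prop) hmem
  have h4 : (fun z : ℝ × S2 => iteratedFDeriv ℝ k (fun q => mdl z.1 q v w) (z.2 : E3)) =
      fun z : ℝ × S2 => (iteratedFDeriv ℝ k (fun z : ℝ × E3 => mdl z.1 z.2 v w)
        (z.1, (z.2 : E3))).compContinuousLinearMap (fun _ => ContinuousLinearMap.inr ℝ ℝ E3) := by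
    funext z
    exact iter_eq isOpen_U (F_smooth v w) k z.1 z.2 (hmem z)
  rw [h4]
  exact (ContinuousMultilinearMap.compContinuousLinearMapL
    (fun _ : Fin k => ContinuousLinearMap.inr ℝ ℝ E3)).continuous.comp h1

instance : CompactSpace S2 := isCompact_iff_compactSpace.1 (isCompact_sphere (0 : E3) 1)

/-- The model metrics depend continuously on `ε`. -/
theorem tendsto_model (G : ℝ → RMetric) (hG : ∀ ε p v w, (G ε).g p v w = mdl ε p v w) (ε₁ : ℝ) :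
    Tendsto G (𝓝 ε₁) (𝓝 (G ε₁)) := by
  rw [show (𝓝 (G ε₁)) = ⨅ (k : ℕ) (v : E3) (w : E3),
    Filter.comap (jet k v w) (𝓝 (jet k v w (G ε₁))) by
      simp only [nhds_iInf, nhds_induced] ]
  simp only [tendsto_iInf, tendsto_comap_iff]
  intro k v w
  rw [UniformFun.tendsto_iff_tendstoUniformly]
  have h := Continuous.tendstoUniformly
    (fun (ε : ℝ) (p : S2) => iteratedFDeriv ℝ k (fun q => mdl ε q v w) (p : E3))
    (cont_iter k v w) ε₁
  have e : ∀ ε, UniformFun.toFun (jet k v w (G ε)) =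
      fun p : S2 => iteratedFDeriv ℝ k (fun q => mdl ε q v w) (p : E3) := by
    intro ε
    funext p
    show iteratedFDeriv ℝ k (fun q => (G ε).g q v w) (p : E3) = _
    simp only [hG]
  have e1 : (UniformFun.toFun ∘ (jet k v w ∘ G)) =
      fun ε => fun p : S2 => iteratedFDeriv ℝ k (fun q => mdl ε q v w) (p : E3) := by
    funext ε
    exact e ε
  rw [e1, e ε₁]
  exact h

/-! ### Metrics are determined by their restrictions to the tangent planes -/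

/-- `G` is the conformal metric `e^{2 ε u} g₀` -/
def IsConf (ε : ℝ) (G : RMetric) : Prop :=
  ∀ p v w : E3, ‖p‖ = 1 → inner ℝ p v = 0 → inner ℝ p w = 0 →
    G.g p v w = Real.exp (2 * ε * ∑ i, (p i ^ 5 + 100 * p i ^ 3)) * inner ℝ v w

theorem eq_mdl {ε : ℝ} {G : RMetric} (hG : IsConf ε G) (p v w : E3) :
    G.g p v w = mdl ε p v w := by
  have hunit : ∀ p v w : E3, ‖p‖ = 1 → G.g p v w = mdl ε p v w := by
    intro p v w hp
    have hp0 : p ≠ 0 := by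
      rintro rfl
      simp at hp
    have hpp : (⟪p, p⟫ : ℝ) = 1 := by rw [real_inner_self_eq_norm_sq, hp]; norm_num
    have hdec : ∀ v : E3, v = (v - (⟪p, v⟫ : ℝ) • p) + (⟪p, v⟫ : ℝ) • p := fun v => by abel
    have hort : ∀ v : E3, (⟪p, v - (⟪p, v⟫ : ℝ) • p⟫ : ℝ) = 0 := by
      intro v
      rw [inner_sub_right, inner_smul_right, hpp]
      ring
    have hform := G.form p
    have hr : ∀ (c : ℝ) (w : E3), G.g p (c • p) w = 0 := by
      intro c w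
      rw [hform.smul, G.radial, mul_zero]
    have h1 : G.g p v w = G.g p (v - (⟪p, v⟫ : ℝ) • p) (w - (⟪p, w⟫ : ℝ) • p) := by
      conv_lhs => rw [hdec v, hform.add, hr, add_zero, hform.symm]
      conv_lhs => rw [hdec w, hform.add, hr, add_zero, hform.symm]
    rw [h1, hG p _ _ hp (hort v) (hort w), mdl_apply hp0, hp]
    have hu : (2 * ε * ∑ i, (p i ^ 5 + 100 * p i ^ 3)) = 2 * (ε * uu ((1 : ℝ)⁻¹ • p)) := by
      rw [inv_one, one_smul, uu]
      ring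
    rw [hu]
    congr 1
    rw [inner_sub_left, inner_sub_right, inner_sub_right, inner_smul_left, inner_smul_left,
      inner_smul_right, inner_smul_right, hpp, real_inner_comm v p, real_inner_comm p v]
    simp
    ring
  by_cases hp : p = 0
  · subst hp
    rw [G.zero]
    simp [mdl]
  · have hnp : 0 < ‖p‖ := norm_pos_iff.2 hp
    have h1 := G.ray (‖p‖⁻¹) p v w (by positivity)
    have h2 : ‖‖p‖⁻¹ • p‖ = 1 := by
      rw [norm_smul, norm_inv, norm_norm, inv_mul_cancel₀ hnp.ne']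
    rw [← h1, hunit _ v w h2]
    obtain ⟨S, hS⟩ := mdl_metric ε
    have h3 := S.ray (‖p‖⁻¹) p (by positivity)
    rw [hS] at h3
    rw [h3]

theorem exists_conf (ε : ℝ) : ∃ G : RMetric, IsConf ε G ∧ ∀ p v w, G.g p v w = mdl ε p v w := by
  obtain ⟨S, hS⟩ := mdl_metric ε
  refine ⟨ofS S, ?_, fun p v w => ?_⟩
  · intro p v w hp hv hw
    have hp0 : p ≠ 0 := by
      rintro rfl
      simp at hp
    show S.g p v w = _
    rw [hS, mdl_apply hp0, hp, hv, hw]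
    have hu : (2 * ε * ∑ i, (p i ^ 5 + 100 * p i ^ 3)) = 2 * (ε * uu ((1 : ℝ)⁻¹ • p)) := by
      rw [inv_one, one_smul, uu]
      ring
    rw [hu]
    simp
  · show S.g p v w = _
    rw [hS]

theorem ext_metric {G G' : RMetric} (h : ∀ p v w, G.g p v w = G'.g p v w) : G = G' := by
  cases G
  cases G'
  have : ∀ p v w, _ = _ := h
  congr
  funext p v w
  exact this p v w

/-- The round metric is a limit of interior points of the set of the metrics without (O). -/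
theorem round_mem {G : RMetric} (hG : IsConf 0 G) : G ∈ closure (interior NoO) := by
  obtain ⟨ε₀, hε₀, h⟩ := nhd_noO
  choose A hA1 hA2 using exists_conf
  have hG' : G = A 0 := ext_metric fun p v w => by rw [eq_mdl hG, hA2]
  rw [hG', mem_closure_iff_nhds]
  intro U hU
  have ht := tendsto_model A hA2 0
  have h1 : ∀ᶠ ε in 𝓝 (0 : ℝ), A ε ∈ U := ht hU
  have h2 : ∀ᶠ ε in 𝓝[>] (0 : ℝ), A ε ∈ U := h1.filter_mono nhdsWithin_le_nhds
  have h3 : ∀ᶠ ε in 𝓝[>] (0 : ℝ), ε ∈ Set.Ioc (0 : ℝ) ε₀ := Ioc_mem_nhdsGT hε₀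
  obtain ⟨ε, h4, h5⟩ := (h2.and h3).exists
  exact ⟨A ε, h4, mem_interior_iff_mem_nhds.2 (h ε h5.1 h5.2 (A ε) (hA2 ε))⟩

end Pool.Agent.KS6_98.OppR
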